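import Pool.Agent.Helper97.HG2.SumN

/-!
# Project HG2 (MP_e66f84_ag), block CN: the count
-/

set_option autoImplicit false

namespace Pool.Agent.Helper97.HG2

open Filter Topology Pool.Agent.Helper99.HG Pool.Agent.HG

variable {k : ℕ} {G : Type}

/-- the main count -/
theorem main_countN [CommGroup G] {D : CD k G} (hS : Sys D.P D.nm) {ε C : ℝ} {A : ℕ} (hC : 0 < C) (hε : 0 < ε) (hε1 : ε ≤ 1)
    (hBT : BTc D ε C A) {z : ℕ → ℕ} {N X : ℕ} (hN : 2 ≤ N) (hz : 2 ≤ z (N - 1)) (hX : 3 ≤ X) {j₀ : Fin k} (hSp : Special D j₀)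
    {os : D.P → D.O} (hos : ∀ p, (∃ o ∈ D.V p, D.cmp o = j₀) → os p ∈ D.V p ∧ D.cmp (os p) = j₀)
    {PB : ℕ → Finset (Fin k) → Prop} (hPB : ∀ κ J, PB κ J → J.Nonempty) (o₀ : D.O) (S : Finset (Finset D.P))
    (hSc : ∀ c ∈ S, Nm D c ≤ X ∧ (∃ τ : D.P → D.O, BadT D c τ ∧ ∀ κ < N, PB κ (Js (Kof D z N c τ) κ)) ∧
      (∀ κ, 1 ≤ κ → κ + 1 ≤ N - 1 → (∏ p ∈ (pf D c).filter (fun p => D.nm p ≤ z κ), D.nm p) ^ A ≤ z (κ + 1)))
    {B : ℝ} (hB : ∀ K : Fin k → ℕ, (∀ j, K j ≤ N) → (∀ κ < N, PB κ (Js K κ)) → ∑ p ∈ pr D X, ap (DK D j₀ os z N K) z N K p ≤ B) :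
    (S.card : ℝ) ≤ (N + 1) ^ k * (C * ((1 + 16 / ε * C) * Real.log X ^ ε) ^ k / Real.log (z (N - 1)) ^ (1 - ε) * X * Real.exp B) := by
  classical
  set Ks := (Fintype.piFinset fun _ : Fin k => Finset.range (N + 1)).filter fun K => ∀ κ < N, PB κ (Js K κ) with hKs
  let SK : (Fin k → ℕ) → Finset (Finset D.P) := fun K => S.filter fun c => ∃ τ : D.P → D.O, BadT D c τ ∧ Kof D z N c τ = K
  have hsub : S ⊆ Ks.biUnion SK := by
    intro c hc
    obtain ⟨h1, ⟨τ, h2, h3⟩, h4⟩ := hSc c hc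
    refine Finset.mem_biUnion.mpr ⟨Kof D z N c τ, Finset.mem_filter.mpr ⟨Fintype.mem_piFinset.mpr fun j =>
      Finset.mem_range.mpr (Nat.lt_succ_of_le (Kof_le (by omega) c τ j)), h3⟩, Finset.mem_filter.mpr ⟨hc, τ, h2, rfl⟩⟩
  have hlX : 0 ≤ Real.log X := Real.log_natCast_nonneg X
  have hlz : 0 ≤ Real.log (z (N - 1)) := Real.log_natCast_nonneg _
  have hK1 : ∀ K ∈ Ks, ((SK K).card : ℝ) ≤ C * ((1 + 16 / ε * C) * Real.log X ^ ε) ^ k / Real.log (z (N - 1)) ^ (1 - ε) * X * Real.exp B := by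
    intro K hK
    obtain ⟨hKa, hKb⟩ := Finset.mem_filter.mp hK
    have hKle : ∀ j, K j ≤ N := fun j => by
      have := Finset.mem_range.mp (Fintype.mem_piFinset.mp hKa j)
      omega
    refine perK (D := DK D j₀ os z N K) hS hC hε hε1 (BTc_DK hS hBT) hN hz hX hKle (hPB _ _ (hKb (N - 1) (by omega))) o₀ (SK K) ?_
      (hB K hKle hKb)
    intro c hc
    obtain ⟨hcS, τ, hτ, hτK⟩ := Finset.mem_filter.mp hc
    obtain ⟨h1, _, h4⟩ := hSc c hcS
    obtain ⟨τ', h5, h6⟩ := badT_DK (z := z) (N := N) hSp hos hτ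
    rw [hτK] at h5 h6
    have h7 := coverT (D := DK D j₀ os z N K) (A := A) (X := X) hS (by omega : 0 < N) h1 h5 h4 o₀
    rw [h6] at h7
    exact h7
  have hcard : (S.card : ℝ) ≤ ∑ K ∈ Ks, ((SK K).card : ℝ) := by
    exact_mod_cast (Finset.card_le_card hsub).trans Finset.card_biUnion_le
  refine (hcard.trans (Finset.sum_le_sum hK1)).trans ?_
  rw [Finset.sum_const, nsmul_eq_mul]
  have h5 : Ks.card ≤ (N + 1) ^ k := by
    refine (Finset.card_filter_le _ _).trans ?_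
    rw [Fintype.card_piFinset]
    simp
  have h6 : (Ks.card : ℝ) ≤ (N + 1) ^ k := by exact_mod_cast h5
  exact mul_le_mul_of_nonneg_right h6 (by positivity)

private theorem ll_mono97 {y x : ℕ} (hy : 2 ≤ y) (h : y ≤ x) : Real.log (Real.log y) ≤ Real.log (Real.log x) :=
  Real.log_le_log (Real.log_pos (by exact_mod_cast (by omega : 1 < y)))
    (Real.log_le_log (by exact_mod_cast (by omega : 0 < y)) (by exact_mod_cast h))

/-- uniform constants for the components of the second kind -/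
theorem unif_B97 (D : CD k G) : ∃ δ C : ℝ, 0 < δ ∧ δ ≤ 1 ∧ 0 ≤ C ∧ ∀ J, TB D J → ∀ y x : ℕ, 2 ≤ y → y ≤ x →
    ∀ S : Finset D.P, (∀ p, p ∈ S ↔ p ∉ D.Ex ∧ y < D.nm p ∧ D.nm p ≤ x) →
      ∑ p ∈ S, WJ D J p / D.nm p ≤ (1 - δ) * (Real.log (Real.log x) - Real.log (Real.log y)) + C := by
  classical
  have h : ∀ J : Finset (Fin k), ∃ δ C : ℝ, 0 < δ ∧ δ ≤ 1 ∧ 0 ≤ C ∧ (TB D J → ∀ y x : ℕ, 2 ≤ y → y ≤ x →
      ∀ S : Finset D.P, (∀ p, p ∈ S ↔ p ∉ D.Ex ∧ y < D.nm p ∧ D.nm p ≤ x) →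
      ∑ p ∈ S, WJ D J p / D.nm p ≤ (1 - δ) * (Real.log (Real.log x) - Real.log (Real.log y)) + C) := by
    intro J
    by_cases hJ : TB D J
    · obtain ⟨_, δ, C, h1, h2⟩ := id hJ
      refine ⟨min δ 1, |C|, lt_min h1 one_pos, min_le_right _ _, abs_nonneg C, fun _ y x hy hx S hS => ?_⟩
      have h3 := h2 y x hy hx S hS
      have h4 := ll_mono97 hy hx
      have h5 : (1 - δ) * (Real.log (Real.log x) - Real.log (Real.log y)) ≤ (1 - min δ 1) * (Real.log (Real.log x) - Real.log (Real.log y)) :=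
        mul_le_mul_of_nonneg_right (by linarith [min_le_left δ 1]) (by linarith)
      linarith [le_abs_self C]
    · exact ⟨1, 0, one_pos, le_rfl, le_rfl, fun h => absurd h hJ⟩
  choose δ C h1 h2 h3 h4 using h
  refine ⟨∏ J, δ J, ∑ J, C J, Finset.prod_pos fun J _ => h1 J, Finset.prod_le_one (fun J _ => (h1 J).le) fun J _ => h2 J,
    Finset.sum_nonneg fun J _ => h3 J, fun J hJ y x hy hx S hS => ?_⟩
  have h5 := h4 J hJ y x hy hx S hS
  have h6 : ∏ J, δ J ≤ δ J := by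
    rw [← Finset.mul_prod_erase Finset.univ δ (Finset.mem_univ J)]
    have : ∏ J ∈ Finset.univ.erase J, δ J ≤ 1 := Finset.prod_le_one (fun J _ => (h1 J).le) fun J _ => h2 J
    nlinarith [h1 J]
  have h7 : C J ≤ ∑ J, C J := Finset.single_le_sum (fun J _ => h3 J) (Finset.mem_univ J)
  have h8 := ll_mono97 hy hx
  have h9 : (1 - δ J) * (Real.log (Real.log x) - Real.log (Real.log y)) ≤ (1 - ∏ J, δ J) * (Real.log (Real.log x) - Real.log (Real.log y)) :=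
    mul_le_mul_of_nonneg_right (by linarith) (by linarith)
  linarith

/-- uniform constants for the components of the first kind -/
theorem unif_A97 (D : CD k G) : ∃ δ C : ℝ, 0 < δ ∧ 0 ≤ C ∧ ∀ J, TA D J → ∀ y x : ℕ, 2 ≤ y → y ≤ x →
    ∀ S : Finset D.P, (∀ p, p ∈ S ↔ p ∉ D.Ex ∧ y < D.nm p ∧ D.nm p ≤ x ∧ ∀ o ∈ D.V p, D.cmp o ∉ J) →
      δ * (Real.log (Real.log x) - Real.log (Real.log y)) - C ≤ ∑ p ∈ S, (1 : ℝ) / D.nm p := by
  classical
  have h : ∀ J : Finset (Fin k), ∃ δ C : ℝ, 0 < δ ∧ δ ≤ 1 ∧ 0 ≤ C ∧ (TA D J → ∀ y x : ℕ, 2 ≤ y → y ≤ x →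
      ∀ S : Finset D.P, (∀ p, p ∈ S ↔ p ∉ D.Ex ∧ y < D.nm p ∧ D.nm p ≤ x ∧ ∀ o ∈ D.V p, D.cmp o ∉ J) →
      δ * (Real.log (Real.log x) - Real.log (Real.log y)) - C ≤ ∑ p ∈ S, (1 : ℝ) / D.nm p) := by
    intro J
    by_cases hJ : TA D J
    · obtain ⟨δ, C, h1, h2⟩ := id hJ
      refine ⟨min δ 1, |C|, lt_min h1 one_pos, min_le_right _ _, abs_nonneg C, fun _ y x hy hx S hS => ?_⟩
      have h3 := h2 y x hy hx S hS
      have h4 := ll_mono97 hy hx
      have h5 : min δ 1 * (Real.log (Real.log x) - Real.log (Real.log y)) ≤ δ * (Real.log (Real.log x) - Real.log (Real.log y)) :=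
        mul_le_mul_of_nonneg_right (min_le_left δ 1) (by linarith)
      linarith [le_abs_self C]
    · exact ⟨1, 0, one_pos, le_rfl, le_rfl, fun h => absurd h hJ⟩
  choose δ C h1 h2 h3 h4 using h
  refine ⟨∏ J, δ J, ∑ J, C J, Finset.prod_pos fun J _ => h1 J,
    Finset.sum_nonneg fun J _ => h3 J, fun J hJ y x hy hx S hS => ?_⟩
  have h5 := h4 J hJ y x hy hx S hS
  have h6 : ∏ J, δ J ≤ δ J := by
    rw [← Finset.mul_prod_erase Finset.univ δ (Finset.mem_univ J)]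
    have : ∏ J ∈ Finset.univ.erase J, δ J ≤ 1 := Finset.prod_le_one (fun J _ => (h1 J).le) fun J _ => h2 J
    nlinarith [h1 J]
  have h7 : C J ≤ ∑ J, C J := Finset.single_le_sum (fun J _ => h3 J) (Finset.mem_univ J)
  have h8 := ll_mono97 hy hx
  have h9 : (∏ J, δ J) * (Real.log (Real.log x) - Real.log (Real.log y)) ≤ δ J * (Real.log (Real.log x) - Real.log (Real.log y)) :=
    mul_le_mul_of_nonneg_right h6 (by linarith)
  linarith

private theorem exp_ll97 {X : ℕ} (hX : 3 ≤ X) (a : ℝ) : Real.exp (a * Real.log (Real.log X)) = Real.log X ^ a := by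
  rw [Real.rpow_def_of_pos (by linarith [log_ge_one hX]), mul_comm]

open Classical in
/-- few sets with a large smooth part -/
theorem exc_E97 {D : CD k G} (hS : Sys D.P D.nm) : ∃ C : ℝ, 0 < C ∧ ∀ (N A X κ : ℕ), 3 ≤ X → κ + 1 ≤ N → 0 < A →
    ∀ S : Finset (Finset D.P), (∀ c ∈ S, Nm D c ≤ X ∧
      ¬ (∏ p ∈ (pf D c).filter (fun p => D.nm p ≤ zz N X κ), D.nm p) ^ A ≤ zz N X (κ + 1)) →
    (S.card : ℝ) ≤ 4 * A * C * X * Real.log X ^ (-(1 / (N : ℝ))) := by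
  obtain ⟨C, hC, h⟩ := smooth hS
  refine ⟨C, hC, fun N A X κ hX hκ hA S hSc => ?_⟩
  have hA' : (0 : ℝ) < A := by exact_mod_cast hA
  have hlX := log_ge_one hX
  have hN' : (0 : ℝ) < N := by exact_mod_cast (by omega : 0 < N)
  have hz2 := zz_two (N := N) (κ := κ) hX
  have hz3 := zz_two (N := N) (κ := κ + 1) hX
  have hlz : 0 < Real.log (zz N X (κ + 1)) := Real.log_pos (by exact_mod_cast (by omega : 1 < zz N X (κ + 1)))
  have h1 := h (zz N X κ) X hz2 (Real.log (zz N X (κ + 1)) / A) (by positivity) S (by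
    intro c hc
    obtain ⟨g1, g2⟩ := hSc c hc
    refine ⟨g1, ?_⟩
    push Not at g2
    have g3 : (zz N X (κ + 1) : ℝ) ≤ ((∏ p ∈ (pf D c).filter (fun p => D.nm p ≤ zz N X κ), D.nm p : ℕ) : ℝ) ^ A := by exact_mod_cast g2.le
    have g4 := Real.log_le_log (by exact_mod_cast (by omega : 0 < zz N X (κ + 1))) g3
    rw [Real.log_pow, Nat.cast_prod, Real.log_prod] at g4
    · rw [div_le_iff₀ hA', mul_comm]
      refine g4.trans (mul_le_mul_of_nonneg_left ?_ hA'.le)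
      refine Finset.sum_le_sum_of_subset_of_nonneg ?_ fun p _ _ => Real.log_nonneg ?_
      · intro p hp
        obtain ⟨k1, k2⟩ := Finset.mem_filter.mp hp
        exact Finset.mem_filter.mpr ⟨(mem_pf.mp k1).1, k2⟩
      · have := hS.two p
        exact_mod_cast (by omega : 1 ≤ D.nm p)
    · intro p _
      have := hS.two p
      exact_mod_cast (by omega : D.nm p ≠ 0))
  refine h1.trans ?_
  have h2 := log_zz_le (N := N) (κ := κ) hX (by omega)
  have h3 := le_log_zz (N := N) (κ := κ + 1) hX hκ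
  have hp1 : 0 < Real.log X ^ ((κ : ℝ) / N) := by positivity
  have hp2 : 0 < Real.log X ^ (((κ + 1 : ℕ) : ℝ) / N) := by positivity
  have h4 : Real.log (zz N X κ) / (Real.log (zz N X (κ + 1)) / A) ≤ 4 * A * Real.log X ^ (-(1 / (N : ℝ))) := by
    have e : Real.log X ^ (-(1 / (N : ℝ))) = Real.log X ^ ((κ : ℝ) / N) / Real.log X ^ (((κ + 1 : ℕ) : ℝ) / N) := by
      rw [← Real.rpow_sub (by linarith)]
      congr 1
      push_cast
      field_simp
      ring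
    rw [e, div_div_eq_mul_div, div_le_iff₀ hlz]
    have h5 : 4 * (A : ℝ) * (Real.log X ^ ((κ : ℝ) / N) / Real.log X ^ (((κ + 1 : ℕ) : ℝ) / N)) * (1 / 4 * Real.log X ^ (((κ + 1 : ℕ) : ℝ) / N)) ≤
        4 * (A : ℝ) * (Real.log X ^ ((κ : ℝ) / N) / Real.log X ^ (((κ + 1 : ℕ) : ℝ) / N)) * Real.log (zz N X (κ + 1)) :=
      mul_le_mul_of_nonneg_left h3 (by positivity)
    refine le_trans ?_ h5
    calc Real.log (zz N X κ) * A ≤ Real.log X ^ ((κ : ℝ) / N) * A := mul_le_mul_of_nonneg_right h2 hA'.le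
      _ = _ := by field_simp
  calc C * X * (Real.log (zz N X κ) / (Real.log (zz N X (κ + 1)) / A)) ≤ C * X * (4 * A * Real.log X ^ (-(1 / (N : ℝ)))) :=
        mul_le_mul_of_nonneg_left h4 (by positivity)
    _ = _ := by ring

open Classical in
/-- few sets without primes which have no option in `J` -/
theorem exc_F97 {D : CD k G} (hS : Sys D.P D.nm) {δ CA : ℝ} (hδ : 0 < δ)
    (hTA : ∀ J, TA D J → ∀ y x : ℕ, 2 ≤ y → y ≤ x →
    ∀ S : Finset D.P, (∀ p, p ∈ S ↔ p ∉ D.Ex ∧ y < D.nm p ∧ D.nm p ≤ x ∧ ∀ o ∈ D.V p, D.cmp o ∉ J) →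
      δ * (Real.log (Real.log x) - Real.log (Real.log y)) - CA ≤ ∑ p ∈ S, (1 : ℝ) / D.nm p) :
    ∃ C : ℝ, 0 < C ∧ ∀ (N X κ : ℕ) (J : Finset (Fin k)), 3 ≤ X → κ < N → TA D J →
    ∀ S : Finset (Finset D.P), (∀ c ∈ S, Nm D c ≤ X ∧
      ¬ ∃ p ∈ pf D c, sc (zz N X) N (D.nm p) = κ ∧ ∀ o ∈ D.V p, D.cmp o ∉ J) →
    (S.card : ℝ) ≤ C * X * Real.log X ^ (-(δ / (N : ℝ))) := by
  obtain ⟨C, hC, h⟩ := hall hS
  refine ⟨C * Real.exp (CA + δ * Real.log 4), by positivity, fun N X κ J hX hκ hJ S hSc => ?_⟩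
  set T := (pr D X).filter (fun p => p ∉ D.Ex ∧ sc (zz N X) N (D.nm p) = κ ∧ ∀ o ∈ D.V p, D.cmp o ∉ J) with hT
  set T' := (pr D (zz N X (κ + 1))).filter (fun p => p ∉ D.Ex ∧ zz N X κ < D.nm p ∧ ∀ o ∈ D.V p, D.cmp o ∉ J) with hT'
  have hN : 0 < N := by omega
  have h1 := h X (by omega) T (fun p hp => (mem_pr hS).mp (Finset.mem_filter.mp hp).1) S (by
    intro c hc
    obtain ⟨g1, g2⟩ := hSc c hc
    refine ⟨g1, ?_⟩
    rw [Finset.disjoint_left]
    intro p hp hpT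
    obtain ⟨_, k1, k2, k3⟩ := Finset.mem_filter.mp hpT
    exact g2 ⟨p, mem_pf.mpr ⟨hp, k1⟩, k2, k3⟩)
  have hsub : T' ⊆ T := by
    intro p hp
    obtain ⟨k0, k1, k2, k3⟩ := Finset.mem_filter.mp hp
    have k4 := (mem_pr hS).mp k0
    refine Finset.mem_filter.mpr ⟨(mem_pr hS).mpr ?_, k1, ?_, k3⟩
    · rw [← zz_top hN hX]
      exact k4.trans (zz_mono hX (by omega))
    · have k5 : κ ≤ sc (zz N X) N (D.nm p) := Nat.le_findGreatest (by omega) k2
      by_contra hne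
      have k6 : κ + 1 ≤ sc (zz N X) N (D.nm p) := by omega
      have k7 := sc_pos (z := zz N X) (N := N) (p := D.nm p) (by omega)
      have k8 := zz_mono (N := N) hX k6
      omega
  have h2 := hTA J hJ (zz N X κ) (zz N X (κ + 1)) (zz_two hX) (zz_mono hX (Nat.le_succ κ)) T' (by
    intro p
    rw [hT', Finset.mem_filter, mem_pr hS]
    tauto)
  have h3 : ∑ p ∈ T', (1 : ℝ) / D.nm p ≤ ∑ p ∈ T, (1 : ℝ) / D.nm p :=
    Finset.sum_le_sum_of_subset_of_nonneg hsub fun p _ _ => by positivity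
  have h4 := ll_diff' hN hX hκ
  have h5 : δ * (Real.log (Real.log X) / N - Real.log 4) ≤
      δ * (Real.log (Real.log (zz N X (κ + 1))) - Real.log (Real.log (zz N X κ))) := mul_le_mul_of_nonneg_left h4 hδ.le
  have h6 : Real.exp (-∑ p ∈ T, (1 : ℝ) / D.nm p) ≤ Real.exp (CA + δ * Real.log 4) * Real.log X ^ (-(δ / (N : ℝ))) := by
    rw [← exp_ll97 hX, ← Real.exp_add]
    refine Real.exp_le_exp.mpr ?_
    have e : -(δ / (N : ℝ)) * Real.log (Real.log X) = -(δ * (Real.log (Real.log X) / N)) := by ring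
    rw [e]
    linarith
  calc (S.card : ℝ) ≤ C * X * Real.exp (-∑ p ∈ T, (1 : ℝ) / D.nm p) := h1
    _ ≤ C * X * (Real.exp (CA + δ * Real.log 4) * Real.log X ^ (-(δ / (N : ℝ)))) := mul_le_mul_of_nonneg_left h6 (by positivity)
    _ = _ := by ring

private theorem rpow_le97 {X : ℕ} (hX : 3 ≤ X) {a η : ℝ} (h : η ≤ a) : Real.log X ^ (-a) ≤ Real.log X ^ (-η) :=
  Real.rpow_le_rpow_of_exponent_le (log_ge_one hX) (by linarith)

/-- a large prime has a large scale -/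
theorem le_sc_of_exp {N X κ p : ℕ} (hX : 3 ≤ X) (hN : 0 < N) (hκN : κ < N) {ε : ℝ} (hκ : (κ : ℝ) < ε * N)
    (hp : Real.exp (Real.log X ^ ε) ≤ p) : κ ≤ sc (zz N X) N p := by
  have hN' : (0 : ℝ) < N := by exact_mod_cast hN
  have hlX1 : 1 < Real.log X := by
    have h3 : (3 : ℝ) ≤ X := by exact_mod_cast hX
    rw [Real.lt_log_iff_exp_lt (by linarith)]
    linarith [Real.exp_one_lt_d9]
  refine Nat.le_findGreatest (by omega) ?_
  have h1 : ((min κ N : ℕ) : ℝ) / N < ε := by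
    rw [div_lt_iff₀ hN']
    have : ((min κ N : ℕ) : ℝ) = κ := by
      rw [min_eq_left hκN.le]
    rw [this]
    exact hκ
  have h2 : (zz N X κ : ℝ) ≤ Real.exp (Real.log X ^ (((min κ N : ℕ) : ℝ) / N)) := Nat.floor_le (Real.exp_pos _).le
  have h3 : Real.exp (Real.log X ^ (((min κ N : ℕ) : ℝ) / N)) < Real.exp (Real.log X ^ ε) :=
    Real.exp_lt_exp.mpr (Real.rpow_lt_rpow_of_exponent_lt hlX1 h1)
  exact_mod_cast (h2.trans_lt h3).trans_le hp

end Pool.Agent.Helper97.HG2
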