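import Pool.Agent.Helper99.HG.Sum
import Pool.Agent.Helper13.HG2.Defs

/-!
# Project HG2 (MP_e66f84_ag), block CN: the decomposition of a set with given options
-/

set_option autoImplicit false

namespace Pool.Agent.Helper97.HG2

open Filter Topology Pool.Agent.Helper99.HG Pool.Agent.HG

variable {k : ℕ} {G : Type}

/-- the scales of the components -/
noncomputable def Kof (D : CD k G) (z : ℕ → ℕ) (N : ℕ) (c : Finset D.P) (τ : D.P → D.O) (j : Fin k) : ℕ :=
  ((pf D c).filter fun p => D.cmp (τ p) = j).sup fun p => sc z N (D.nm p) + 1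

theorem lt_Kof {D : CD k G} {z : ℕ → ℕ} {N : ℕ} {c : Finset D.P} {τ : D.P → D.O} {p : D.P} (hp : p ∈ pf D c) :
    sc z N (D.nm p) < Kof D z N c τ (D.cmp (τ p)) :=
  Finset.le_sup (f := fun p => sc z N (D.nm p) + 1) (Finset.mem_filter.mpr ⟨hp, rfl⟩)

theorem Kof_le {D : CD k G} {z : ℕ → ℕ} {N : ℕ} (hN : 0 < N) (c : Finset D.P) (τ : D.P → D.O) (j : Fin k) :
    Kof D z N c τ j ≤ N := Finset.sup_le fun p _ => sc_lt z hN (D.nm p)

open Classical in
theorem coverT [CommGroup G] {D : CD k G} (hS : Sys D.P D.nm) {z : ℕ → ℕ} {N A X : ℕ} {c : Finset D.P} (hN : 0 < N)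
    (hcX : Nm D c ≤ X) {τ : D.P → D.O} (hτ : BadT D c τ)
    (hsm : ∀ κ, 1 ≤ κ → κ + 1 ≤ N - 1 → (∏ p ∈ (pf D c).filter (fun p => D.nm p ≤ z κ), D.nm p) ^ A ≤ z (κ + 1)) (o₀ : D.O) :
    ∃ d ∈ DD D z N A X, ∃ f ∈ Finset.pi (pf D d) (fun p => VV D z N (Kof D z N c τ) p),
        ∃ q ∈ Fintype.piFinset (fun j => UU D z N X (Kof D z N c τ) d (ext o₀ _ f) j), Nm D d * ∏ j, Nm D (q j) ≤ X ∧
          d ∪ Finset.univ.biUnion q = c := by
  set P := pf D c with hP
  set K : Fin k → ℕ := Kof D z N c τ with hKdef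
  have hKle : ∀ p ∈ P, sc z N (D.nm p) < K (D.cmp (τ p)) := fun p hp => lt_Kof hp
  have hq : ∀ j, ∃ q : Finset D.P, if K j = 0 then q = ∅ else ∃ Q, q = {Q} ∧ Q ∈ P ∧ D.cmp (τ Q) = j ∧ sc z N (D.nm Q) + 1 = K j := by
    intro j
    by_cases h : K j = 0
    · exact ⟨∅, by rw [if_pos h]⟩
    · have hne : (P.filter fun p => D.cmp (τ p) = j).Nonempty := by
        rw [Finset.nonempty_iff_ne_empty]
        intro he
        refine h ?_
        rw [hKdef]
        unfold Kof
        rw [← hP, he]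
        rfl
      obtain ⟨q, hq1, hq2⟩ := Finset.exists_mem_eq_sup _ hne fun p => sc z N (D.nm p) + 1
      refine ⟨{q}, ?_⟩
      rw [if_neg h]
      exact ⟨q, rfl, (Finset.mem_filter.mp hq1).1, (Finset.mem_filter.mp hq1).2, hq2.symm⟩
  choose q hq using hq
  have hq0 : ∀ j, K j = 0 → q j = ∅ := fun j h => by
    have := hq j
    rwa [if_pos h] at this
  have hq1 : ∀ j, K j ≠ 0 → ∃ Q, q j = {Q} ∧ Q ∈ P ∧ D.cmp (τ Q) = j ∧ sc z N (D.nm Q) + 1 = K j := fun j h => by
    have := hq j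
    rwa [if_neg h] at this
  have hqm : ∀ j p, p ∈ q j → K j ≠ 0 ∧ p ∈ P ∧ D.cmp (τ p) = j ∧ sc z N (D.nm p) + 1 = K j ∧ q j = {p} := by
    intro j p hp
    have h : K j ≠ 0 := by
      intro h
      rw [hq0 j h] at hp
      simp at hp
    obtain ⟨Q, h1, h2, h3, h4⟩ := hq1 j h
    rw [h1, Finset.mem_singleton] at hp
    subst hp
    exact ⟨h, h2, h3, h4, h1⟩
  set T := Finset.univ.biUnion q with hT
  have hTP : T ⊆ P := by
    intro p hp
    obtain ⟨j, _, hj⟩ := Finset.mem_biUnion.mp hp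
    exact (hqm j p hj).2.1
  have hTc : T ⊆ c := fun p hp => (mem_pf.mp (hTP hp)).1
  have hprodq : ∏ j, Nm D (q j) = Nm D T := by
    unfold Nm
    rw [hT, Finset.prod_biUnion]
    intro i _ j _ hij
    rw [Function.onFun, Finset.disjoint_left]
    intro p h1 h2
    exact hij ((hqm i p h1).2.2.1.symm.trans (hqm j p h2).2.2.1)
  set d := c \ T with hd
  have hdc : Nm D d * ∏ j, Nm D (q j) = Nm D c := by
    rw [hprodq, hd]
    unfold Nm
    exact Finset.prod_sdiff hTc
  have hpfd : pf D d = P \ T := by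
    ext p
    rw [Finset.mem_sdiff, mem_pf, hd, Finset.mem_sdiff, hP, mem_pf]
    tauto
  have hdP : ∀ p ∈ pf D d, p ∈ P := by
    intro p hp
    rw [hpfd] at hp
    exact (Finset.mem_sdiff.mp hp).1
  set f : ∀ p ∈ pf D d, D.O := fun p _ => τ p with hf
  have hext : ∀ p ∈ pf D d, ext o₀ _ f p = τ p := by
    intro p hp
    unfold ext
    rw [dif_pos hp]
  -- the conditions
  have htt : ∀ p ∈ pf D d, ∀ j, ∀ Q, q j = {Q} → ∀ i ∈ D.I p (τ p) j, D.χ p i Q (τ Q) = tt D d (ext o₀ _ f) j p i := by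
    intro p hp j Q hj i hi
    have hpP := hdP p hp
    have h1 := (hτ p hpP).2 j i hi
    have hpT : p ∉ T := by
      rw [hpfd] at hp
      exact (Finset.mem_sdiff.mp hp).2
    have hQ : Q ∈ q j := by
      rw [hj]
      exact Finset.mem_singleton_self Q
    have hQj := hqm j Q hQ
    have hqT : Q ∈ T := Finset.mem_biUnion.mpr ⟨j, Finset.mem_univ _, hQ⟩
    have hqp : Q ≠ p := fun h => hpT (h ▸ hqT)
    have e : P.filter (fun q' => q' ≠ p ∧ D.cmp (τ q') = j) =
        insert Q ((pf D d).filter (fun q' => q' ≠ p ∧ D.cmp (ext o₀ _ f q') = j)) := by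
      ext r
      rw [Finset.mem_filter, Finset.mem_insert, Finset.mem_filter]
      constructor
      · rintro ⟨h2, h3, h4⟩
        by_cases hr : r ∈ T
        · left
          obtain ⟨j', _, hj'⟩ := Finset.mem_biUnion.mp hr
          have h5 := hqm j' r hj'
          have h6 : j' = j := h5.2.2.1.symm.trans h4
          rw [h6, hj, Finset.mem_singleton] at hj'
          exact hj'
        · right
          have hr' : r ∈ pf D d := by
            rw [hpfd]
            exact Finset.mem_sdiff.mpr ⟨h2, hr⟩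
          refine ⟨hr', h3, ?_⟩
          rw [hext r hr']
          exact h4
      · rintro (rfl | ⟨h2, h3, h4⟩)
        · exact ⟨hQj.2.1, hqp, hQj.2.2.1⟩
        · rw [hext r h2] at h4
          exact ⟨hdP r h2, h3, h4⟩
    have hnot : Q ∉ (pf D d).filter (fun q' => q' ≠ p ∧ D.cmp (ext o₀ _ f q') = j) := by
      intro h
      have h2 := (Finset.mem_filter.mp h).1
      rw [hpfd] at h2
      exact (Finset.mem_sdiff.mp h2).2 hqT
    rw [e, Finset.prod_insert hnot] at h1
    unfold tt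
    rw [hext p hp, eq_mul_inv_iff_mul_eq, ← h1]
    congr 1
    refine Finset.prod_congr rfl fun r hr => ?_
    rw [hext r (Finset.mem_filter.mp hr).1]
  refine ⟨d, ?_, f, ?_, q, ?_, ?_, ?_⟩
  · refine Finset.mem_filter.mpr ⟨?_, ?_⟩
    · rw [Finset.mem_powerset]
      intro p hp
      rw [mem_pr hS]
      exact (nm_le_Nm hS (Finset.mem_sdiff.mp hp).1).trans hcX
    · intro κ h1 h2
      refine (Nat.pow_le_pow_left ?_ _).trans (hsm κ h1 h2)
      refine Nat.le_of_dvd (Finset.prod_pos fun p _ => ?_) ?_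
      · have := hS.two p
        omega
      refine Finset.prod_dvd_prod_of_subset _ _ _ (Finset.filter_subset_filter _ ?_)
      exact fun p hp => hdP p hp
  · rw [Finset.mem_pi]
    intro p hp
    refine Finset.mem_filter.mpr ⟨(hτ p (hdP p hp)).1, Finset.mem_filter.mpr ⟨Finset.mem_univ _, ?_⟩⟩
    exact hKle p (hdP p hp)
  · rw [Fintype.mem_piFinset]
    intro j
    unfold UU
    by_cases h : K j = 0
    · rw [if_pos h, hq0 j h]
      exact Finset.mem_singleton_self _
    · rw [if_neg h]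
      obtain ⟨Q, g0, g1, g2, g3⟩ := hq1 j h
      have hqT : Q ∈ T := Finset.mem_biUnion.mpr ⟨j, Finset.mem_univ _, by rw [g0]; exact Finset.mem_singleton_self Q⟩
      rw [g0]
      refine Finset.mem_image.mpr ⟨Q, Finset.mem_filter.mpr ⟨?_, (mem_pf.mp g1).2, ?_, g3, τ Q, (hτ _ g1).1, g2, ?_⟩, rfl⟩
      · rw [mem_pr hS]
        exact (nm_le_Nm hS (mem_pf.mp g1).1).trans hcX
      · intro h2
        have h3 := (Finset.mem_filter.mp h2).1
        rw [hpfd] at h3
        exact (Finset.mem_sdiff.mp h3).2 hqT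
      · intro p hp i hi
        have hp1 := (Finset.mem_filter.mp hp).1
        rw [hext p hp1] at hi
        exact htt p hp1 j Q g0 i hi
  · rw [hdc]
    exact hcX
  · rw [hd]
    exact Finset.sdiff_union_of_subset hTc

end Pool.Agent.Helper97.HG2
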