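import Pool.Agent.Helper97.HG2.CoverT

/-!
# Project HG2 (MP_e66f84_ag), block CN: the count for fixed scales, the reduced data
-/

set_option autoImplicit false

namespace Pool.Agent.Helper97.HG2

open Filter Topology Pool.Agent.Helper99.HG Pool.Agent.HG

variable {k : ℕ} {G : Type}

open Classical in
/-- the count for fixed scales of the components -/
theorem perK [CommGroup G] {D : CD k G} (hS : Sys D.P D.nm) {ε C : ℝ} {A : ℕ} (hC : 0 < C) (hε : 0 < ε) (hε1 : ε ≤ 1)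
    (hBT : BTc D ε C A) {z : ℕ → ℕ} {N X : ℕ} (hN : 2 ≤ N) (hz : 2 ≤ z (N - 1)) (hX : 3 ≤ X) {K : Fin k → ℕ}
    (hKle : ∀ j, K j ≤ N) (hKne : (Js K (N - 1)).Nonempty) (o₀ : D.O) (S : Finset (Finset D.P))
    (hSc : ∀ c ∈ S, ∃ d ∈ DD D z N A X, ∃ f ∈ Finset.pi (pf D d) (fun p => VV D z N K p),
        ∃ q ∈ Fintype.piFinset (fun j => UU D z N X K d (ext o₀ _ f) j), Nm D d * ∏ j, Nm D (q j) ≤ X ∧
          d ∪ Finset.univ.biUnion q = c)
    {B : ℝ} (hB : ∑ p ∈ pr D X, ap D z N K p ≤ B) :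
    (S.card : ℝ) ≤ C * ((1 + 16 / ε * C) * Real.log X ^ ε) ^ k / Real.log (z (N - 1)) ^ (1 - ε) * X * Real.exp B := by
  have hsub : S ⊆ (DD D z N A X).biUnion fun d => (Finset.pi (pf D d) (fun p => VV D z N K p)).biUnion fun f =>
      ((Fintype.piFinset (fun j => UU D z N X K d (ext o₀ _ f) j)).filter (fun q => Nm D d * ∏ j, Nm D (q j) ≤ X)).image
        fun q => d ∪ Finset.univ.biUnion q := by
    intro c hc
    obtain ⟨d, hd, f, hf, q, hq, hqX, he⟩ := hSc c hc
    simp only [Finset.mem_biUnion, Finset.mem_image]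
    exact ⟨d, hd, f, hf, q, Finset.mem_filter.mpr ⟨hq, hqX⟩, he⟩
  have hcard : (S.card : ℝ) ≤ ∑ d ∈ DD D z N A X, ∑ f ∈ Finset.pi (pf D d) (fun p => VV D z N K p),
      (((Fintype.piFinset (fun j => UU D z N X K d (ext o₀ _ f) j)).filter (fun q => Nm D d * ∏ j, Nm D (q j) ≤ X)).card : ℝ) := by
    have h1 : S.card ≤ ∑ d ∈ DD D z N A X, ∑ f ∈ Finset.pi (pf D d) (fun p => VV D z N K p),
        ((Fintype.piFinset (fun j => UU D z N X K d (ext o₀ _ f) j)).filter (fun q => Nm D d * ∏ j, Nm D (q j) ≤ X)).card := by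
      refine (Finset.card_le_card hsub).trans (Finset.card_biUnion_le.trans ?_)
      refine Finset.sum_le_sum fun d _ => Finset.card_biUnion_le.trans ?_
      exact Finset.sum_le_sum fun f _ => Finset.card_image_le
    exact_mod_cast h1
  refine hcard.trans ?_
  set Y : ℝ := C * ((1 + 16 / ε * C) * Real.log X ^ ε) ^ k / Real.log (z (N - 1)) ^ (1 - ε) * X with hY
  have hlX : 0 ≤ Real.log X := Real.log_natCast_nonneg X
  have hlz : 0 ≤ Real.log (z (N - 1)) := Real.log_natCast_nonneg _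
  have hY0 : 0 ≤ Y := by
    rw [hY]
    positivity
  obtain ⟨j₀, hj₀⟩ := hKne
  have hj1 : K j₀ = N := by
    have h1 := (Finset.mem_filter.mp hj₀).2
    have h2 := hKle j₀
    omega
  have h1 : ∀ d ∈ DD D z N A X, ∑ f ∈ Finset.pi (pf D d) (fun p => VV D z N K p),
      (((Fintype.piFinset (fun j => UU D z N X K d (ext o₀ _ f) j)).filter (fun q => Nm D d * ∏ j, Nm D (q j) ≤ X)).card : ℝ) ≤
      Y * (1 / Nm D d * ∏ p ∈ pf D d, Wt D z N K p) := by
    intro d hd
    have h2 : ∀ f ∈ Finset.pi (pf D d) (fun p => VV D z N K p),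
        (((Fintype.piFinset (fun j => UU D z N X K d (ext o₀ _ f) j)).filter (fun q => Nm D d * ∏ j, Nm D (q j) ≤ X)).card : ℝ) ≤
        Y * (1 / Nm D d * ∏ j, wj D z N K d (ext o₀ _ f) j) := by
      intro f hf
      refine one hS hC hε hε1 hBT hd ?_ hKle hj1 hN hz hX
      intro p hp
      unfold ext
      rw [dif_pos hp]
      exact (Finset.mem_filter.mp (Finset.mem_pi.mp hf p hp)).1
    refine (Finset.sum_le_sum h2).trans (le_of_eq ?_)
    rw [← Finset.mul_sum, ← Finset.mul_sum, sum_pi]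
  refine (Finset.sum_le_sum h1).trans ?_
  rw [← Finset.mul_sum]
  exact mul_le_mul_of_nonneg_left ((euler D z N A X K).trans (Real.exp_le_exp.mpr hB)) hY0

/-- the data in which the primes at the scales with the only component `j₀` have one option and no conditions -/
@[reducible] noncomputable def DK (D : CD k G) (j₀ : Fin k) (os : D.P → D.O) (z : ℕ → ℕ) (N : ℕ) (K : Fin k → ℕ) : CD k G :=
  open Classical in
  { P := D.P
    nm := D.nm
    Ex := D.Ex
    O := D.O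
    ι := D.ι
    V := fun p => if Js K (sc z N (D.nm p)) = {j₀} then (D.V p).filter (fun o => o = os p) else D.V p
    cmp := D.cmp
    I := fun p o j => if Js K (sc z N (D.nm p)) = {j₀} then ∅ else D.I p o j
    χ := D.χ
    g := D.g }

section DK

variable {D : CD k G} {j₀ : Fin k} {os : D.P → D.O} {z : ℕ → ℕ} {N : ℕ} {K : Fin k → ℕ}

open Classical in
theorem DK_V_pos {p : D.P} (h : Js K (sc z N (D.nm p)) = {j₀}) :
    (DK D j₀ os z N K).V p = (D.V p).filter (fun o => o = os p) := if_pos h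

theorem DK_V_neg {p : D.P} (h : ¬ Js K (sc z N (D.nm p)) = {j₀}) : (DK D j₀ os z N K).V p = D.V p := if_neg h

theorem DK_I_pos {p : D.P} (h : Js K (sc z N (D.nm p)) = {j₀}) (o : D.O) (j : Fin k) :
    (DK D j₀ os z N K).I p o j = (∅ : Finset D.ι) := if_pos h

theorem DK_I_neg {p : D.P} (h : ¬ Js K (sc z N (D.nm p)) = {j₀}) (o : D.O) (j : Fin k) :
    (DK D j₀ os z N K).I p o j = D.I p o j := if_neg h

theorem DK_V_sub (p : D.P) : ∀ o : D.O, o ∈ (DK D j₀ os z N K).V p → o ∈ D.V p := by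
  classical
  intro o ho
  by_cases h : Js K (sc z N (D.nm p)) = {j₀}
  · rw [DK_V_pos h] at ho
    exact (Finset.mem_filter.mp ho).1
  · rwa [DK_V_neg h] at ho

theorem badT_DK [CommGroup G] (hSp : Special D j₀)
    (hos : ∀ p, (∃ o ∈ D.V p, D.cmp o = j₀) → os p ∈ D.V p ∧ D.cmp (os p) = j₀) {c : Finset D.P}
    {τ : D.P → D.O} (hτ : BadT D c τ) :
    ∃ τ' : D.P → D.O, BadT (DK D j₀ os z N (Kof D z N c τ)) c τ' ∧
      Kof (DK D j₀ os z N (Kof D z N c τ)) z N c τ' = Kof D z N c τ := by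
  classical
  obtain ⟨K, hK⟩ : ∃ K, K = Kof D z N c τ := ⟨_, rfl⟩
  rw [← hK]
  have h0 : ∀ p ∈ pf D c, Js K (sc z N (D.nm p)) = {j₀} → D.cmp (τ p) = j₀ := by
    intro p hp h
    have h1 : D.cmp (τ p) ∈ Js K (sc z N (D.nm p)) := by
      rw [hK]
      exact Finset.mem_filter.mpr ⟨Finset.mem_univ _, lt_Kof hp⟩
    rw [h] at h1
    exact Finset.mem_singleton.mp h1
  have h1 : ∀ p ∈ pf D c, Js K (sc z N (D.nm p)) = {j₀} → os p ∈ D.V p ∧ D.cmp (os p) = j₀ := fun p hp h =>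
    hos p ⟨τ p, (hτ p hp).1, h0 p hp h⟩
  obtain ⟨τ', hτ'⟩ : ∃ τ' : D.P → D.O, τ' = fun p => if Js K (sc z N (D.nm p)) = {j₀} then os p else τ p := ⟨_, rfl⟩
  have e1 : ∀ p, Js K (sc z N (D.nm p)) = {j₀} → τ' p = os p := fun p h => by
    rw [hτ']
    exact if_pos h
  have e2 : ∀ p, ¬ Js K (sc z N (D.nm p)) = {j₀} → τ' p = τ p := fun p h => by
    rw [hτ']
    exact if_neg h
  have h2 : ∀ p ∈ pf D c, D.cmp (τ' p) = D.cmp (τ p) := by
    intro p hp
    by_cases h : Js K (sc z N (D.nm p)) = {j₀}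
    · rw [e1 p h, (h1 p hp h).2, h0 p hp h]
    · rw [e2 p h]
  have h3 : ∀ q ∈ pf D c, ∀ p i, D.χ p i q (τ' q) = D.χ p i q (τ q) := by
    intro q hq p i
    by_cases h : Js K (sc z N (D.nm q)) = {j₀}
    · rw [e1 q h]
      exact hSp.chi q _ (h1 q hq h).1 _ (hτ q hq).1 (h1 q hq h).2 (h0 q hq h) p i
    · rw [e2 q h]
  refine ⟨τ', ?_, ?_⟩
  · intro p hp
    have hp' : p ∈ pf D c := hp
    by_cases h : Js K (sc z N (D.nm p)) = {j₀}
    · refine ⟨?_, ?_⟩
      · rw [DK_V_pos h]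
        exact Finset.mem_filter.mpr ⟨by rw [e1 p h]; exact (h1 p hp' h).1, e1 p h⟩
      · intro j i hi
        rw [DK_I_pos h] at hi
        exact absurd hi (Finset.notMem_empty _)
    · refine ⟨?_, ?_⟩
      · rw [DK_V_neg h, e2 p h]
        exact (hτ p hp').1
      · intro j i hi
        rw [DK_I_neg h, e2 p h] at hi
        have h4 := (hτ p hp').2 j i hi
        have e5 : (pf D c).filter (fun q => q ≠ p ∧ D.cmp (τ' q) = j) = (pf D c).filter (fun q => q ≠ p ∧ D.cmp (τ q) = j) :=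
          Finset.filter_congr fun q hq => by rw [h2 q hq]
        have h5 : ∏ q ∈ (pf D c).filter (fun q => q ≠ p ∧ D.cmp (τ' q) = j), D.χ p i q (τ' q) = D.g p (τ' p) i := by
          rw [e2 p h, ← h4]
          exact Finset.prod_congr e5 fun q hq => h3 q (Finset.mem_filter.mp hq).1 p i
        exact h5
  · rw [hK]
    funext j
    unfold Kof
    have e : ((pf D c).filter fun p => D.cmp (τ' p) = j) = (pf D c).filter fun p => D.cmp (τ p) = j :=
      Finset.filter_congr fun p hp => by rw [h2 p hp]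
    exact congrArg (fun s : Finset D.P => s.sup fun p => sc z N (D.nm p) + 1) e

theorem BTc_DK {ε C : ℝ} {A : ℕ} (hS : Sys D.P D.nm) (hBT : BTc D ε C A) : BTc (DK D j₀ os z N K) ε C A := by
  classical
  intro j m hm τ hτ t h h2 hmA T hT
  let m' : Finset D.P := Finset.filter (fun p : D.P => ¬ Js K (sc z N (D.nm p)) = {j₀}) m
  have hm'm : ∀ p : D.P, p ∈ m' → p ∈ m := fun p hp => (Finset.mem_filter.mp hp).1
  have hm'n : ∀ p : D.P, p ∈ m' → ¬ Js K (sc z N (D.nm p)) = {j₀} := fun p hp => (Finset.mem_filter.mp hp).2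
  have h1 := hBT j m' (fun p hp => hm p (hm'm p hp)) τ (fun p hp => DK_V_sub p _ (hτ p (hm'm p hp))) t h h2
    ((Nat.pow_le_pow_left (Nat.le_of_dvd (Nm_pos hS m) (Finset.prod_dvd_prod_of_subset _ _ _ (Finset.filter_subset _ _))) A).trans hmA)
    T (by
      intro Q hQ
      obtain ⟨g1, g2, g3, o, g4, g5, g6⟩ := hT Q hQ
      refine ⟨g1, fun h => g2 (hm'm Q h), g3, o, DK_V_sub Q o g4, g5, fun p hp i hi => g6 p (hm'm p hp) i ?_⟩
      have e := DK_I_neg (os := os) (hm'n p hp) (τ p) j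
      exact e.symm ▸ hi)
  refine h1.trans (le_of_eq ?_)
  congr 2
  change ∏ p ∈ Finset.filter (fun p : D.P => ¬ Js K (sc z N (D.nm p)) = {j₀}) m, _ = _
  rw [Finset.prod_filter]
  refine Finset.prod_congr rfl fun p _ => ?_
  by_cases hp : Js K (sc z N (D.nm p)) = {j₀}
  · rw [if_neg (not_not_intro hp), DK_I_pos hp]
    simp
  · rw [if_pos hp, DK_I_neg hp]

end DK

end Pool.Agent.Helper97.HG2
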