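import Pool.Agent.Helper97.HG2.PerK

/-!
# Project HG2 (MP_e66f84_ag), block CN: the sum of the weights
-/

set_option autoImplicit false

namespace Pool.Agent.Helper97.HG2

open Filter Topology Pool.Agent.Helper99.HG Pool.Agent.HG

variable {k : ℕ} {G : Type}

theorem DK_Wt_le {D : CD k G} {j₀ : Fin k} {os : D.P → D.O} {z : ℕ → ℕ} {N : ℕ} {K : Fin k → ℕ} {K₀ : ℕ}
    (hV : ∀ p, (D.V p).card ≤ K₀) (p : D.P) : Wt (DK D j₀ os z N K) z N K p ≤ K₀ := by
  classical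
  refine Wt_le (D := DK D j₀ os z N K) (fun p => ?_) z N K p
  refine le_trans ?_ (hV p)
  exact Finset.card_le_card (DK_V_sub (D := D) (j₀ := j₀) (os := os) (z := z) (N := N) (K := K) p)

theorem DK_Wt_one {D : CD k G} {j₀ : Fin k} {os : D.P → D.O} {z : ℕ → ℕ} {N : ℕ} {K : Fin k → ℕ}
    {p : D.P} (h : Js K (sc z N (D.nm p)) = {j₀}) : Wt (DK D j₀ os z N K) z N K p ≤ 1 := by
  classical
  unfold Wt
  have h1 : (VV (DK D j₀ os z N K) z N K p).card ≤ 1 := by
    refine (Finset.card_filter_le _ _).trans ?_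
    rw [DK_V_pos h]
    refine Finset.card_le_one.mpr ?_
    intro a ha b hb
    exact (Finset.mem_filter.mp ha).2.trans (Finset.mem_filter.mp hb).2.symm
  calc _ ≤ ∑ o ∈ VV (DK D j₀ os z N K) z N K p, (1 : ℝ) :=
        Finset.sum_le_sum fun o _ => pow_le_one₀ (by norm_num) (by norm_num)
    _ = (VV (DK D j₀ os z N K) z N K p).card := by simp
    _ ≤ 1 := by exact_mod_cast h1

theorem DK_Wt_reg {D : CD k G} {j₀ : Fin k} {os : D.P → D.O} {z : ℕ → ℕ} {N : ℕ} {K : Fin k → ℕ}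
    {p : D.P} {κ : ℕ} (hp : sc z N (D.nm p) = κ) (h : ¬ Js K κ = {j₀}) (hreg : Js K κ = Js K (κ + 2)) :
    Wt (DK D j₀ os z N K) z N K p = WJ D (Js K κ) p := by
  have h' : ¬ Js K (sc z N (D.nm p)) = {j₀} := by rwa [hp]
  have e1 : VV (DK D j₀ os z N K) z N K p = (D.V p).filter (fun o => D.cmp o ∈ Js K κ) := by
    unfold VV
    rw [DK_V_neg h']
    change (D.V p).filter (fun o => D.cmp o ∈ Js K (sc z N (D.nm p))) = _
    rw [hp]
  unfold Wt WJ
  rw [e1]
  refine Finset.sum_congr rfl fun o _ => ?_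
  change (1 / 2 : ℝ) ^ (∑ j ∈ Js K (sc z N (D.nm p) + 2), ((DK D j₀ os z N K).I p o j).card) = _
  rw [hp, ← hreg]
  congr 1
  refine Finset.sum_congr rfl fun j _ => ?_
  rw [DK_I_neg h']

/-- the bound for the sum of the local factors -/
theorem ap_sumN {D : CD k G} (hS : Sys D.P D.nm) {K₀ : ℕ} (hV : ∀ p, (D.V p).card ≤ K₀) (j₀ : Fin k) (os : D.P → D.O)
    {PB : Finset (Fin k) → Prop} {δ CB CM : ℝ}
    (hδ0 : 0 ≤ δ) (hδ : δ ≤ 1) (hCB : 0 ≤ CB) (hCM : 0 ≤ CM)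
    (hTB : ∀ J, PB J → ∀ y x : ℕ, 2 ≤ y → y ≤ x → ∀ S : Finset D.P, (∀ p, p ∈ S ↔ p ∉ D.Ex ∧ y < D.nm p ∧ D.nm p ≤ x) →
      ∑ p ∈ S, WJ D J p / D.nm p ≤ (1 - δ) * (Real.log (Real.log x) - Real.log (Real.log y)) + CB)
    (hMe : ∀ y x : ℕ, 2 ≤ y → y ≤ x → ∀ S : Finset D.P, (∀ p ∈ S, y < D.nm p ∧ D.nm p ≤ x) →
      ∑ p ∈ S, (1 : ℝ) / D.nm p ≤ Real.log (Real.log x) - Real.log (Real.log y) + CM)
    {N X : ℕ} (hN : 0 < N) (hX : 3 ≤ X) (K : Fin k → ℕ) (hK : ∀ κ < N, Js K κ = {j₀} ∨ PB (Js K κ))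
    {κ₀ : ℕ} (hκ₀ : κ₀ ≤ N) (hK0 : ∀ κ < κ₀, Js K κ ≠ {j₀}) :
    ∑ p ∈ pr D X, ap (DK D j₀ os (zz N X) N K) (zz N X) N K p ≤
      D.Ex.card + K₀ * (pr D 2).card + N * ((Real.log 4 + CB) + (K₀ + 1) * (Real.log 4 + CM)) +
      ((1 - δ * (κ₀ / N)) + 2 * k * K₀ / N) * Real.log (Real.log X) := by
  classical
  set z := zz N X with hz
  obtain ⟨W, hWdef⟩ : ∃ W : D.P → ℝ, W = fun p => Wt (DK D j₀ os z N K) z N K p := ⟨_, rfl⟩
  have hW0 : ∀ p, 0 ≤ W p := fun p => by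
    rw [hWdef]
    exact Wt_nonneg (DK D j₀ os z N K) z N K p
  have hWl : ∀ p, W p ≤ K₀ := fun p => by
    rw [hWdef]
    exact DK_Wt_le hV p
  have hW1 : ∀ p, Js K (sc z N (D.nm p)) = {j₀} → W p ≤ 1 := fun p h => by
    rw [hWdef]
    exact DK_Wt_one h
  have hWr : ∀ p κ, sc z N (D.nm p) = κ → ¬ Js K κ = {j₀} → Js K κ = Js K (κ + 2) → W p = WJ D (Js K κ) p := fun p κ h1 h2 h3 => by
    rw [hWdef]
    exact DK_Wt_reg h1 h2 h3
  have hap : ∀ p, ap (DK D j₀ os z N K) z N K p = (if p ∈ D.Ex then 1 else W p) / D.nm p := fun p => by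
    rw [hWdef]
    rfl
  have hsum : ∑ p ∈ pr D X, ap (DK D j₀ os z N K) z N K p = ∑ p ∈ pr D X, (if p ∈ D.Ex then 1 else W p) / D.nm p :=
    Finset.sum_congr rfl fun p _ => hap p
  rw [hsum]
  set ℓ := Real.log (Real.log X) with hℓ
  have hℓ0 : 0 ≤ ℓ := Real.log_nonneg (log_ge_one hX)
  have hl4 : 0 ≤ Real.log 4 := Real.log_nonneg (by norm_num)
  have hN' : (0 : ℝ) < N := by exact_mod_cast hN
  let R : ℕ → Finset D.P := fun κ => (pr D X).filter fun p => p ∉ D.Ex ∧ sc z N (D.nm p) = κ ∧ z κ < D.nm p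
  have hnm : ∀ p, (1 : ℝ) ≤ D.nm p := fun p => by
    have := hS.two p
    exact_mod_cast (by omega : 1 ≤ D.nm p)
  have hpt : ∀ p ∈ pr D X, (if p ∈ D.Ex then 1 else W p) / D.nm p ≤ (if p ∈ D.Ex then (1 : ℝ) else 0) + (if D.nm p ≤ 2 then (K₀ : ℝ) else 0) +
      ∑ κ ∈ Finset.range N, if p ∈ R κ then W p / D.nm p else 0 := by
    intro p hp
    have hW0 := hW0 p
    have hWl := hWl p
    have hn := hnm p
    have hs : 0 ≤ ∑ κ ∈ Finset.range N, if p ∈ R κ then W p / D.nm p else 0 :=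
      Finset.sum_nonneg fun κ _ => by split_ifs <;> positivity
    have hK0 : (0 : ℝ) ≤ if D.nm p ≤ 2 then (K₀ : ℝ) else 0 := by split_ifs <;> positivity
    by_cases hE : p ∈ D.Ex
    · rw [if_pos hE, if_pos hE]
      have : (1 : ℝ) / D.nm p ≤ 1 := by rw [div_le_one (by linarith)]; exact hn
      linarith
    · rw [if_neg hE, if_neg hE]
      by_cases h2 : D.nm p ≤ 2
      · rw [if_pos h2]
        have : W p / D.nm p ≤ K₀ := by
          rw [div_le_iff₀ (by linarith)]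
          nlinarith
        linarith
      · rw [if_neg h2]
        have hlt := sc_lt z hN (D.nm p)
        have hR : p ∈ R (sc z N (D.nm p)) := by
          refine Finset.mem_filter.mpr ⟨hp, hE, rfl, ?_⟩
          by_cases h0 : sc z N (D.nm p) = 0
          · rw [h0, hz, zz_zero]
            omega
          · exact sc_pos h0
        have h3 : W p / D.nm p ≤ ∑ κ ∈ Finset.range N, if p ∈ R κ then W p / D.nm p else 0 := by
          have h4 := Finset.single_le_sum (f := fun κ => if p ∈ R κ then W p / (D.nm p : ℝ) else 0)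
            (fun κ _ => by
              show 0 ≤ if p ∈ R κ then W p / (D.nm p : ℝ) else 0
              split_ifs <;> positivity) (Finset.mem_range.mpr hlt)
          simp only [if_pos hR] at h4
          exact h4
        linarith
  refine (Finset.sum_le_sum hpt).trans ?_
  rw [Finset.sum_add_distrib, Finset.sum_add_distrib, Finset.sum_comm]
  have a1 : ∑ p ∈ pr D X, (if p ∈ D.Ex then (1 : ℝ) else 0) ≤ D.Ex.card := by
    rw [← Finset.sum_filter, Finset.sum_const, nsmul_eq_mul, mul_one]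
    have : (pr D X).filter (fun p => p ∈ D.Ex) ⊆ D.Ex := fun p hp => (Finset.mem_filter.mp hp).2
    exact_mod_cast Finset.card_le_card this
  have a2 : ∑ p ∈ pr D X, (if D.nm p ≤ 2 then (K₀ : ℝ) else 0) ≤ K₀ * (pr D 2).card := by
    rw [← Finset.sum_filter, Finset.sum_const, nsmul_eq_mul, mul_comm]
    have : (pr D X).filter (fun p => D.nm p ≤ 2) ⊆ pr D 2 := fun p hp => (mem_pr hS).mpr (Finset.mem_filter.mp hp).2
    exact mul_le_mul_of_nonneg_left (by exact_mod_cast Finset.card_le_card this) (Nat.cast_nonneg _)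
  have a3 : ∀ κ ∈ Finset.range N, ∑ p ∈ pr D X, (if p ∈ R κ then W p / D.nm p else 0) ≤
      (1 - δ) * (ℓ / N) + (if κ₀ ≤ κ then δ * (ℓ / N) else 0) + (if Js K κ ≠ Js K (κ + 2) then K₀ * (ℓ / N) else 0) +
        ((Real.log 4 + CB) + (K₀ + 1) * (Real.log 4 + CM)) := by
    intro κ hκ
    have hκN := Finset.mem_range.mp hκ
    rw [← Finset.sum_filter]
    have e1 : (pr D X).filter (fun p => p ∈ R κ) = R κ := by
      ext p
      rw [Finset.mem_filter]
      constructor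
      · exact fun h => h.2
      · exact fun h => ⟨(Finset.mem_filter.mp h).1, h⟩
    rw [e1]
    set T := (pr D (z (κ + 1))).filter (fun p => p ∉ D.Ex ∧ z κ < D.nm p) with hT
    have hRT : R κ ⊆ T := by
      intro p hp
      obtain ⟨h1, h2, h3, h4⟩ := Finset.mem_filter.mp hp
      refine Finset.mem_filter.mpr ⟨(mem_pr hS).mpr ?_, h2, h4⟩
      rcases Nat.lt_or_ge (κ + 1) N with h5 | h5
      · exact sc_le (z := z) (N := N) (k := κ + 1) (by omega) (by omega)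
      · have h6 : κ + 1 = N := by omega
        rw [h6, hz, zz_top hN hX]
        exact (mem_pr hS).mp h1
    have hTm : ∀ p, p ∈ T ↔ p ∉ D.Ex ∧ z κ < D.nm p ∧ D.nm p ≤ z (κ + 1) := by
      intro p
      rw [hT, Finset.mem_filter, mem_pr hS]
      tauto
    have hd := ll_diff hN hX hκN
    rw [← hz, ← hℓ] at hd
    have hzκ : 2 ≤ z κ := zz_two hX
    have hzm : z κ ≤ z (κ + 1) := zz_mono hX (Nat.le_succ κ)
    have hd0 : 0 ≤ ℓ / N := by positivity
    have hK0' : (0 : ℝ) ≤ K₀ := Nat.cast_nonneg _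
    have hd1 : 0 ≤ (1 - δ) * (ℓ / N) := mul_nonneg (by linarith) hd0
    have hd2 : 0 ≤ δ * (ℓ / N) := mul_nonneg hδ0 hd0
    have hi1 : (0 : ℝ) ≤ if κ₀ ≤ κ then δ * (ℓ / N) else 0 := by split_ifs <;> linarith
    have hi2 : (0 : ℝ) ≤ if Js K κ ≠ Js K (κ + 2) then K₀ * (ℓ / N) else 0 := by
      have := mul_nonneg hK0' hd0
      split_ifs <;> linarith
    have hc1 : 0 ≤ Real.log 4 + CM := by linarith
    have hc2 : 0 ≤ (K₀ : ℝ) * (Real.log 4 + CM) := mul_nonneg hK0' hc1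
    have hc3 : ((K₀ : ℝ) + 1) * (Real.log 4 + CM) = K₀ * (Real.log 4 + CM) + (Real.log 4 + CM) := by ring
    by_cases hj : Js K κ = {j₀}
    · have h0 : κ₀ ≤ κ := by
        by_contra hlt
        exact hK0 κ (by omega) hj
      have h1 : ∑ p ∈ R κ, W p / D.nm p ≤ ∑ p ∈ R κ, (1 : ℝ) / D.nm p := by
        refine Finset.sum_le_sum fun p hp => ?_
        refine div_le_div_of_nonneg_right (hW1 p ?_) (by linarith [hnm p])
        rw [(Finset.mem_filter.mp hp).2.2.1]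
        exact hj
      have h2 := hMe (z κ) (z (κ + 1)) hzκ hzm (R κ) (fun p hp => ((hTm p).mp (hRT hp)).2)
      have h3 : (1 - δ) * (ℓ / N) + (if κ₀ ≤ κ then δ * (ℓ / N) else 0) = ℓ / N := by
        rw [if_pos h0]
        ring
      rw [h3, hc3]
      linarith
    by_cases hreg : Js K κ ≠ Js K (κ + 2)
    · rw [if_pos hreg]
      have h1 : ∑ p ∈ R κ, W p / D.nm p ≤ ∑ p ∈ R κ, K₀ * ((1 : ℝ) / D.nm p) := by
        refine Finset.sum_le_sum fun p _ => ?_
        rw [mul_one_div]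
        exact div_le_div_of_nonneg_right (hWl p) (by linarith [hnm p])
      rw [← Finset.mul_sum] at h1
      have h2 := hMe (z κ) (z (κ + 1)) hzκ hzm (R κ) (fun p hp => ((hTm p).mp (hRT hp)).2)
      have h3 : K₀ * ∑ p ∈ R κ, (1 : ℝ) / D.nm p ≤ K₀ * (ℓ / N + Real.log 4 + CM) := mul_le_mul_of_nonneg_left (by linarith) hK0'
      have h5 : 0 ≤ Real.log 4 + CB := by linarith
      rw [hc3]
      calc ∑ p ∈ R κ, W p / D.nm p ≤ K₀ * (ℓ / N + Real.log 4 + CM) := h1.trans h3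
        _ = K₀ * (ℓ / N) + K₀ * (Real.log 4 + CM) := by ring
        _ ≤ _ := by linarith
    · rw [if_neg hreg]
      push Not at hreg
      have hPB : PB (Js K κ) := (hK κ hκN).resolve_left hj
      have h1 : ∑ p ∈ R κ, W p / D.nm p = ∑ p ∈ R κ, WJ D (Js K κ) p / D.nm p := by
        refine Finset.sum_congr rfl fun p hp => ?_
        rw [hWr p κ (Finset.mem_filter.mp hp).2.2.1 hj hreg]
      have hWJ0 : ∀ p, 0 ≤ WJ D (Js K κ) p := fun p => Finset.sum_nonneg fun o _ => by positivity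
      have h2 : ∑ p ∈ R κ, WJ D (Js K κ) p / D.nm p ≤ ∑ p ∈ T, WJ D (Js K κ) p / D.nm p :=
        Finset.sum_le_sum_of_subset_of_nonneg hRT fun p _ _ => div_nonneg (hWJ0 p) (by linarith [hnm p])
      have h3 := hTB _ hPB (z κ) (z (κ + 1)) hzκ hzm T hTm
      have h4 : (1 - δ) * (Real.log (Real.log (z (κ + 1))) - Real.log (Real.log (z κ))) ≤ (1 - δ) * (ℓ / N + Real.log 4) :=
        mul_le_mul_of_nonneg_left hd (by linarith)
      have h5 : (1 - δ) * Real.log 4 ≤ Real.log 4 := by nlinarith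
      rw [h1, hc3]
      linarith
  refine (add_le_add (add_le_add a1 a2) (Finset.sum_le_sum a3)).trans ?_
  rw [Finset.sum_add_distrib, Finset.sum_add_distrib, Finset.sum_add_distrib, Finset.sum_const, Finset.sum_const, Finset.card_range,
    nsmul_eq_mul, nsmul_eq_mul, ← Finset.sum_filter, ← Finset.sum_filter, Finset.sum_const, Finset.sum_const, nsmul_eq_mul, nsmul_eq_mul]
  have hirr : (((Finset.range N).filter fun κ => Js K κ ≠ Js K (κ + 2)).card : ℝ) ≤ 2 * k := by exact_mod_cast irr_card K N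
  have h7 : (((Finset.range N).filter fun κ => Js K κ ≠ Js K (κ + 2)).card : ℝ) * (K₀ * (ℓ / N)) ≤ 2 * k * (K₀ * (ℓ / N)) :=
    mul_le_mul_of_nonneg_right hirr (by positivity)
  have hcut : (((Finset.range N).filter fun κ => κ₀ ≤ κ).card : ℝ) = N - κ₀ := by
    have e : (Finset.range N).filter (fun κ => κ₀ ≤ κ) = Finset.Ico κ₀ N := by
      ext κ
      rw [Finset.mem_filter, Finset.mem_range, Finset.mem_Ico]
      tauto
    rw [e, Nat.card_Ico, Nat.cast_sub hκ₀]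
  rw [hcut]
  have h8 : (N : ℝ) * ((1 - δ) * (ℓ / N)) + (N - κ₀) * (δ * (ℓ / N)) = (1 - δ * (κ₀ / N)) * ℓ := by
    field_simp
    ring
  have h9 : ((1 - δ * ((κ₀ : ℝ) / N)) + 2 * k * K₀ / N) * ℓ = (1 - δ * (κ₀ / N)) * ℓ + 2 * k * (K₀ * (ℓ / N)) := by ring
  rw [h9, ← h8]
  linarith

end Pool.Agent.Helper97.HG2
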